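import Pool.Agent.H27.Sub4

open Pool.Agent.H27

namespace Pool.Agent.Results.MP_0fb79d_an.Second

/-- For every `N ≥ 2` and `1 < q < 2` some bounded open set has an isolated first `q`-eigenvalue
and its second `q`-eigenvalue is strictly below the second Lusternik-Schnirelman value. -/
theorem result (N : ℕ) (hN : 2 ≤ N) (q : ℝ) (q1 : 1 < q) (q2 : q < 2) :
    ∃ Ω : Set (EuclideanSpace ℝ (Fin N)), IsOpen Ω ∧ Bornology.IsBounded Ω ∧ Ω.Nonempty ∧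
      (∃ ε > 0, ∀ l ∈ QSpec.Spec Ω q, QSpec.lam1 Ω q < l → QSpec.lam1 Ω q + ε ≤ l) ∧
      (∀ l ∈ QSpec.Spec Ω q, QSpec.lam1 Ω q ≤ l) ∧
      {l ∈ QSpec.Spec Ω q | QSpec.lam1 Ω q < l}.Nonempty ∧
      sInf {l ∈ QSpec.Spec Ω q | QSpec.lam1 Ω q < l} < QSpec.lamLS Ω q 2 := by
  obtain ⟨Ω, h1, h2, h3, h4, l, h5, h6, h7⟩ := Iso.second_lt hN q1 q2
  refine ⟨Ω, h1, h2, h3, h4, fun l' ⟨v, hv⟩ => ?_, ⟨l, h5, h6⟩,
    (csInf_le ⟨_, fun x hx => hx.2.le⟩ (Set.mem_sep h5 h6)).trans_lt h7⟩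
  obtain ⟨s, D, S, hD, -⟩ := Iso.sub_bdd hN q1 q2 h1 h2
  obtain ⟨k, k1, -⟩ := S.isEig hD hv
  rw [S.lam_eq hD, ← k1.eq]
  exact S.lam_le k1.one

end Pool.Agent.Results.MP_0fb79d_an.Second
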